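import Pool.Agent.T2H84.ConnMain

/-! The average size of a connected set in a graph with vertices of degree two. -/

set_option autoImplicit false
set_option linter.unusedSectionVars false

namespace Pool.Agent.L5helper46.CD

open Finset Pool.Agent.T2H84

noncomputable section

open scoped Classical

variable {V : Type*} [DecidableEq V] [Fintype V] (G : SimpleGraph V)

/-- The vertices of degree two. -/
def deg2 : Finset V := univ.filter fun u => (univ.filter (G.Adj u)).card = 2

variable {G}

theorem add_credit2 (h0 : ∀ v, 1 ≤ (univ.filter (G.Adj v)).card) {C : Finset V} (hC : Conn G C) :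
    (C.filter fun u => deg G C u = 2 ∨ deg G C u = 0).card ≤ ∑ v ∈ Add G C, kk G C v + (deg2 G).card := by
  have e : ∀ v, kk G C v =
      ((C.filter fun u => deg G C u = 2 ∨ deg G C u = 0).filter (G.Adj v)).card := by
    intro v
    unfold kk
    congr 1
    ext u
    simp only [mem_filter]
    tauto
  simp only [e]
  have := sum_card_bipartiteAbove_eq_sum_card_bipartiteBelow (s := Add G C)
    (t := C.filter fun u => deg G C u = 2 ∨ deg G C u = 0) (fun a b => G.Adj a b)
  unfold bipartiteAbove bipartiteBelow at this
  rw [this]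
  have key : ∀ u ∈ C.filter (fun u => deg G C u = 2 ∨ deg G C u = 0),
      1 ≤ ((Add G C).filter fun a => G.Adj a u).card + (if u ∈ deg2 G then 1 else 0) := by
    intro u hu
    by_cases h2 : u ∈ deg2 G
    · rw [if_pos h2]
      omega
    rw [if_neg h2, add_zero]
    rw [mem_filter] at hu
    have h4 : ∃ v ∈ univ.filter (G.Adj u), v ∉ C := by
      by_contra hcon
      push Not at hcon
      have : univ.filter (G.Adj u) ⊆ C.filter (G.Adj u) := fun x hx =>
        mem_filter.2 ⟨hcon x hx, (mem_filter.1 hx).2⟩
      have h5 := card_le_card this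
      have h5' : (C.filter (G.Adj u)).card ≤ (univ.filter (G.Adj u)).card :=
        card_le_card (filter_subset_filter _ (subset_univ _))
      have h6 := h0 u
      have h7 : (C.filter (G.Adj u)).card = deg G C u := rfl
      have h8 : ¬ (univ.filter (G.Adj u)).card = 2 := fun h => h2 (mem_filter.2 ⟨mem_univ _, h⟩)
      rcases hu.2 with h | h <;> omega
    obtain ⟨v, hv, hvC⟩ := h4
    rw [mem_filter] at hv
    apply card_pos.2
    refine ⟨v, mem_filter.2 ⟨mem_filter.2 ⟨mem_univ _, hvC, ?_⟩, hv.2.symm⟩⟩
    rw [conn_insert hC hvC]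
    exact ⟨u, hu.1, hv.2.symm⟩
  have h1 := sum_le_sum key
  rw [sum_add_distrib, ← card_eq_sum_ones, ← card_filter] at h1
  refine h1.trans (Nat.add_le_add_left ?_ _)
  exact card_le_card fun x hx => (mem_filter.1 hx).2

theorem local_ineq2 (h0 : ∀ v, 1 ≤ (univ.filter (G.Adj v)).card) {C : Finset V} (hC : Conn G C) :
    (6 : ℤ) * C.card - (5 * Fintype.card V + (deg2 G).card) ≤
      ∑ v ∈ Rem G C, (5 - (kk G (C.erase v) v : ℤ)) - ∑ v ∈ Add G C, (5 - (kk G C v : ℤ)) := by
  have hadd : (C.filter fun u => deg G C u = 2 ∨ deg G C u = 0).card ≤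
      ∑ v ∈ Add G C, kk G C v + (deg2 G).card := add_credit2 h0 hC
  have hadd' : ((C.filter fun u => deg G C u = 2 ∨ deg G C u = 0).card : ℤ) ≤
      ∑ v ∈ Add G C, (kk G C v : ℤ) + (deg2 G).card := by exact_mod_cast hadd
  have hA : ((Add G C).card : ℤ) + C.card ≤ Fintype.card V := by exact_mod_cast card_Add_le C
  have hsum : ∑ v ∈ Add G C, (5 - (kk G C v : ℤ)) =
      5 * (Add G C).card - ∑ v ∈ Add G C, (kk G C v : ℤ) := by
    rw [sum_sub_distrib, sum_const, nsmul_eq_mul, mul_comm]
  have hRem : ∑ v ∈ Rem G C, (5 - (kk G (C.erase v) v : ℤ)) =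
      ∑ v ∈ Rem G C, (4 - (hh G (deg G C) C v : ℤ)) + (Rem G C).card := by
    rw [card_eq_sum_ones, Nat.cast_sum, ← sum_add_distrib]
    refine sum_congr rfl fun v hv => ?_
    rw [kk_erase (mem_filter.1 hv).1]
    push_cast
    ring
  -- it suffices to bound the size of `C`
  have hmain : (C.card : ℤ) ≤ ∑ v ∈ Rem G C, (4 - (hh G (deg G C) C v : ℤ)) + (Rem G C).card +
      (C.filter fun u => deg G C u = 2 ∨ deg G C u = 0).card := by
    rcases Nat.lt_or_ge C.card 2 with h2 | h2
    · have h1 : C.card = 1 := by have := hC.1.card_pos; omega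
      obtain ⟨x, rfl⟩ := card_eq_one.1 h1
      have hr : Rem G ({x} : Finset V) = ∅ := by
        rw [Rem, filter_eq_empty_iff]
        intro y hy hc
        rw [mem_singleton] at hy
        subst hy
        have := hc.1
        simp at this
      have hf : (({x} : Finset V).filter fun u => deg G {x} u = 2 ∨ deg G {x} u = 0) = {x} := by
        rw [filter_eq_self]
        intro y hy
        rw [mem_singleton] at hy
        subst hy
        right
        unfold deg
        rw [card_eq_zero, filter_eq_empty_iff]
        intro z hz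
        rw [mem_singleton] at hz
        subst hz
        exact G.irrefl
      rw [hr, hf]
      simp
    · have hr := removable hC h2
      have hsplit : C.card = (Rem G C).card +
          (C.filter fun u => ¬ Conn G (C.erase u) ∧ 3 ≤ deg G C u).card +
          (C.filter fun u => ¬ Conn G (C.erase u) ∧ ¬ 3 ≤ deg G C u).card := by
        have e1 : C.card = (C.filter fun u => Conn G (C.erase u)).card +
            (C.filter fun u => ¬ Conn G (C.erase u)).card :=
          (card_filter_add_card_filter_not _).symm
        have e2 : (C.filter fun u => ¬ Conn G (C.erase u)).card =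
            ((C.filter fun u => ¬ Conn G (C.erase u)).filter fun u => 3 ≤ deg G C u).card +
            ((C.filter fun u => ¬ Conn G (C.erase u)).filter fun u => ¬ 3 ≤ deg G C u).card :=
          (card_filter_add_card_filter_not _).symm
        rw [filter_filter, filter_filter] at e2
        unfold Rem
        omega
      have hle : (C.filter fun u => ¬ Conn G (C.erase u) ∧ ¬ 3 ≤ deg G C u).card ≤
          (C.filter fun u => deg G C u = 2 ∨ deg G C u = 0).card := by
        apply card_le_card
        intro x hx
        rw [mem_filter] at hx ⊢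
        refine ⟨hx.1, Or.inl ?_⟩
        have := cut_deg hC h2 hx.1 hx.2.1
        have := hx.2.2
        omega
      have hsplit' : (C.card : ℤ) = (Rem G C).card +
          (C.filter fun u => ¬ Conn G (C.erase u) ∧ 3 ≤ deg G C u).card +
          (C.filter fun u => ¬ Conn G (C.erase u) ∧ ¬ 3 ≤ deg G C u).card := by
        exact_mod_cast hsplit
      have hle' : ((C.filter fun u => ¬ Conn G (C.erase u) ∧ ¬ 3 ≤ deg G C u).card : ℤ) ≤
          (C.filter fun u => deg G C u = 2 ∨ deg G C u = 0).card := by exact_mod_cast hle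
      linarith
  rw [hsum, hRem]
  linarith

/-- The average size of a connected set is at most `5/6` of the order and `1/6` of the number of the vertices of
degree two. -/
theorem upper_bound2 (h0 : ∀ v, 1 ≤ (univ.filter (G.Adj v)).card) :
    6 * ∑ C ∈ conns G, C.card ≤ (5 * Fintype.card V + (deg2 G).card) * (conns G).card := by
  have h1 : ∑ C ∈ conns G, ((6 : ℤ) * C.card - (5 * Fintype.card V + (deg2 G).card)) ≤
      ∑ C ∈ conns G, (∑ v ∈ Rem G C, (5 - (kk G (C.erase v) v : ℤ)) -
        ∑ v ∈ Add G C, (5 - (kk G C v : ℤ))) :=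
    sum_le_sum fun C hC => local_ineq2 h0 (mem_filter.1 hC).2
  have h2 : ∑ C ∈ conns G, (∑ v ∈ Rem G C, (5 - (kk G (C.erase v) v : ℤ)) -
        ∑ v ∈ Add G C, (5 - (kk G C v : ℤ))) = 0 := by
    rw [sum_sub_distrib, double_count (fun C v => 5 - (kk G C v : ℤ)), sub_self]
  rw [h2, sum_sub_distrib, ← mul_sum, sum_const, nsmul_eq_mul] at h1
  have h4 : (6 : ℤ) * ∑ C ∈ conns G, (C.card : ℤ) ≤
      (5 * Fintype.card V + (deg2 G).card) * (conns G).card := by
    linarith
  exact_mod_cast h4

end

end Pool.Agent.L5helper46.CD
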